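import Pool.Agent.Helper15_Conics.Isom

set_option autoImplicit false

namespace Pool.Agent.Results.MP_9b4c5b_co.NoSixConfiguration

open Pool.Agent.Helper15_Conics

/-- The Euclidean plane. -/
abbrev Plane : Type := EuclideanSpace ℝ (Fin 2)

/-- A set of points of the plane is a (nondegenerate real) conic if it is nonempty and it is the
zero set of a real polynomial `a x² + b x y + c y² + d x + e y + f` whose symmetric `3 × 3` matrix
is invertible.  These are exactly the ellipses (circles included), parabolas and hyperbolas. -/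
def IsConic (S : Set Plane) : Prop :=
  S.Nonempty ∧ ∃ a b c d e f : ℝ,
    Matrix.det !![a, b / 2, d / 2; b / 2, c, e / 2; d / 2, e / 2, f] ≠ 0 ∧
    S = {q : Plane | a * q 0 ^ 2 + b * q 0 * q 1 + c * q 1 ^ 2 + d * q 0 + e * q 1 + f = 0}

/-- Two subsets of the plane are congruent if an isometry of the plane maps one onto the other. -/
def AreCongruent (S T : Set Plane) : Prop :=
  ∃ g : Plane ≃ᵢ Plane, g '' S = T

/-- An `n`-configuration (for `n ≥ 1`): `n` distinct points and `n` pairwise distinct, pairwise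
congruent conics such that each conic contains exactly `n - 1` of the points. -/
def IsConfiguration (n : ℕ) (p : Fin n → Plane) (C : Fin n → Set Plane) : Prop :=
  Function.Injective p ∧ Function.Injective C ∧ (∀ i, IsConic (C i)) ∧
    (∀ i j, AreCongruent (C i) (C j)) ∧ ∀ i, {j : Fin n | p j ∈ C i}.ncard = n - 1

/-- There is no `6`-configuration. -/
theorem result : ¬ ∃ (p : Fin 6 → Plane) (C : Fin 6 → Set Plane), IsConfiguration 6 p C := by
  rintro ⟨p, C, hp, hC, hconic, hcong, hcard⟩
  -- coefficient vectors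
  have hV : ∀ i, ∃ V : Fin 6 → ℝ, disc V ≠ 0 ∧ C i = {q : Plane | ev V (q 0) (q 1) = 0} := by
    intro i
    obtain ⟨_, a, b, c, d, e, f, hdet, hS⟩ := hconic i
    refine ⟨![a, b, c, d, e, f], ?_, ?_⟩
    · intro h
      apply hdet
      rw [Matrix.det_fin_three]
      have h' : 4 * a * c * f + b * d * e - a * e ^ 2 - c * d ^ 2 - f * b ^ 2 = 0 := by
        simpa [disc] using h
      simp
      linear_combination h' / 4
    · rw [hS]
      ext q
      simp [ev, mul_assoc]
  choose V hdisc hCV using hV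
  have hmem : ∀ i (q : Plane), q ∈ C i ↔ ev (V i) (q 0) (q 1) = 0 := by
    intro i q
    rw [hCV i]
    rfl
  -- the missed point
  have hσ : ∀ i, ∃ k, ∀ j, p j ∉ C i ↔ j = k := by
    intro i
    have h1 : ({j : Fin 6 | p j ∈ C i}ᶜ).ncard = 1 := by
      have := Set.ncard_add_ncard_compl {j : Fin 6 | p j ∈ C i}
      rw [hcard i] at this
      simp at this
      omega
    obtain ⟨k, hk⟩ := Set.ncard_eq_one.mp h1
    refine ⟨k, fun j => ?_⟩
    have : j ∈ ({j : Fin 6 | p j ∈ C i}ᶜ) ↔ j ∈ ({k} : Set (Fin 6)) := by rw [hk]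
    simpa using this
  choose σ hσ using hσ
  have hσinj : Function.Injective σ := by
    intro i i' hii
    by_contra hne
    have hne' : C i ≠ C i' := fun h => hne (hC h)
    apply hne'
    set k := σ i with hk
    have hin : ∀ j : Fin 5, p (k.succAbove j) ∈ C i := by
      intro j
      by_contra h
      exact Fin.succAbove_ne k j ((hσ i _).mp h)
    have hin' : ∀ j : Fin 5, p (k.succAbove j) ∈ C i' := by
      intro j
      by_contra h
      have := (hσ i' _).mp h
      rw [← hii] at this
      exact Fin.succAbove_ne k j this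
    obtain ⟨c, hc⟩ := unique_five (fun j => p (k.succAbove j) 0) (fun j => p (k.succAbove j) 1)
      (by
        intro a b hab h
        apply hab
        apply Fin.succAbove_right_injective (p := k)
        apply hp
        ext l
        fin_cases l
        · exact h.1
        · exact h.2)
      (V i) (V i') (fun j => (hmem i _).mp (hin j)) (fun j => (hmem i' _).mp (hin' j)) (hdisc i)
    have hc0 : c ≠ 0 := by
      intro h
      apply hdisc i'
      rw [← hc, h, zero_smul]
      simp [disc]
    ext q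
    rw [hmem, hmem, ← hc]
    have : ev (c • V i) (q 0) (q 1) = c * ev (V i) (q 0) (q 1) := by
      simp only [ev, Pi.smul_apply, smul_eq_mul]
      ring
    rw [this]
    constructor
    · intro h; rw [h, mul_zero]
    · intro h
      rcases mul_eq_zero.mp h with h | h
      · exact absurd h hc0
      · exact h
  -- coordinates
  obtain ⟨X, hX⟩ : ∃ X : Fin 6 → ℝ, ∀ i, X i = p (σ i) 0 := ⟨_, fun i => rfl⟩
  obtain ⟨Y, hY⟩ : ∃ Y : Fin 6 → ℝ, ∀ i, Y i = p (σ i) 1 := ⟨_, fun i => rfl⟩
  have h0 : ∀ i j, i ≠ j → ev (V i) (X j) (Y j) = 0 := by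
    intro i j hij
    rw [hX, hY, ← hmem]
    by_contra h
    exact hij (hσinj ((hσ i _).mp h)).symm
  have h1 : ∀ i, ev (V i) (X i) (Y i) ≠ 0 := by
    intro i
    rw [hX, hY, ne_eq, ← hmem]
    exact (hσ i _).mpr rfl
  -- a quadratic vanishing at five of the points is a multiple of the corresponding conic
  have hprop : ∀ i (q : Fin 6 → ℝ), (∀ j, i ≠ j → ev q (X j) (Y j) = 0) →
      ∃ l : ℝ, q = l • V i := by
    intro i q hq
    refine ⟨ev q (X i) (Y i) / ev (V i) (X i) (Y i), ?_⟩
    rw [← sub_eq_zero]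
    apply evMap_inj X Y V h0 h1
    intro j
    have e : ev (q - (ev q (X i) (Y i) / ev (V i) (X i) (Y i)) • V i) (X j) (Y j)
        = ev q (X j) (Y j)
          - (ev q (X i) (Y i) / ev (V i) (X i) (Y i)) * ev (V i) (X j) (Y j) := by
      simp only [ev, Pi.sub_apply, Pi.smul_apply, smul_eq_mul]
      ring
    rw [e]
    by_cases hij : i = j
    · subst hij
      rw [div_mul_cancel₀ _ (h1 i), sub_self]
    · rw [hq j hij, h0 i j hij]; ring
  -- congruence gives proportional invariants
  have hinv : ∀ i j, ∃ l : ℝ, l ≠ 0 ∧ V j 0 + V j 2 = l * (V i 0 + V i 2) ∧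
      (V j 0 - V j 2) ^ 2 + V j 1 ^ 2 = l ^ 2 * ((V i 0 - V i 2) ^ 2 + V i 1 ^ 2) := by
    intro i j
    obtain ⟨g, hg⟩ := hcong i j
    obtain ⟨a, b, c, d, s, t, r1, r2, r3, hgq⟩ := isometry_coords g
    obtain ⟨l, hl⟩ := hprop i (pull (V j) a b c d s t) (by
      intro k hik
      rw [ev_pull, hX, hY, ← (hgq _).1, ← (hgq _).2, ← hmem, ← hg]
      apply Set.mem_image_of_mem
      rw [hmem, ← hX, ← hY]
      exact h0 i k hik)
    refine ⟨l, ?_, ?_, ?_⟩
    · intro hl0
      rw [hl0, zero_smul] at hl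
      apply h1 j
      obtain ⟨q, hq⟩ := g.surjective (p (σ j))
      have := ev_pull (V j) a b c d s t (q 0) (q 1)
      rw [hl, ← (hgq q).1, ← (hgq q).2, hq, ← hX, ← hY] at this
      rw [← this]
      simp [ev]
    · have := pull_trace (V j) s t r1 r2 r3
      rw [← this, hl]
      simp only [Pi.smul_apply, smul_eq_mul]
      ring
    · have := pull_ecc (V j) s t r1 r2 r3
      rw [← this, hl]
      simp only [Pi.smul_apply, smul_eq_mul]
      ring
  -- traces do not vanish
  have ht : ∀ i, V i 0 + V i 2 ≠ 0 := by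
    intro i hi
    have hall : ∀ j, V j 0 + V j 2 = 0 := by
      intro j
      obtain ⟨l, _, hl, _⟩ := hinv i j
      rw [hl, hi, mul_zero]
    have hz := evMap_inj X Y V h0 h1
      (fun k => (![1, 0, 1, 0, 0, 0] : Fin 6 → ℝ) k
        - ∑ i, (ev ![1, 0, 1, 0, 0, 0] (X i) (Y i) / ev (V i) (X i) (Y i)) * V i k) (by
        intro j
        have e : ev (fun k => (![1, 0, 1, 0, 0, 0] : Fin 6 → ℝ) k
            - ∑ i, (ev ![1, 0, 1, 0, 0, 0] (X i) (Y i) / ev (V i) (X i) (Y i)) * V i k) (X j) (Y j)
            = ev ![1, 0, 1, 0, 0, 0] (X j) (Y j)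
              - ev (fun k => ∑ i, (ev ![1, 0, 1, 0, 0, 0] (X i) (Y i)
                / ev (V i) (X i) (Y i)) * V i k) (X j) (Y j) := by
          simp only [ev]
          ring
        rw [e, ev_sum V (fun i => ev ![1, 0, 1, 0, 0, 0] (X i) (Y i) / ev (V i) (X i) (Y i)),
          Finset.sum_eq_single j]
        · rw [div_mul_cancel₀ _ (h1 j), sub_self]
        · intro i _ hij
          rw [h0 i j hij, mul_zero]
        · intro h
          exact absurd (Finset.mem_univ j) h)
    have z0 : (1 : ℝ) - ∑ i, (ev ![1, 0, 1, 0, 0, 0] (X i) (Y i) / ev (V i) (X i) (Y i)) * V i 0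
        = 0 := congrFun hz 0
    have z2 : (1 : ℝ) - ∑ i, (ev ![1, 0, 1, 0, 0, 0] (X i) (Y i) / ev (V i) (X i) (Y i)) * V i 2
        = 0 := congrFun hz 2
    have hs : ∑ i, (ev ![1, 0, 1, 0, 0, 0] (X i) (Y i) / ev (V i) (X i) (Y i)) * V i 0
        + ∑ i, (ev ![1, 0, 1, 0, 0, 0] (X i) (Y i) / ev (V i) (X i) (Y i)) * V i 2 = 0 := by
      rw [← Finset.sum_add_distrib]
      apply Finset.sum_eq_zero
      intro i _
      rw [← mul_add, hall i, mul_zero]
    linarith
  refine core X Y V h0 h1 (((V 0 0 - V 0 2) ^ 2 + V 0 1 ^ 2) / (V 0 0 + V 0 2) ^ 2) ht ?_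
  intro i
  obtain ⟨l, hl0, hl, hl2⟩ := hinv 0 i
  rw [hl, hl2]
  have := ht 0
  field_simp

end Pool.Agent.Results.MP_9b4c5b_co.NoSixConfiguration
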